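import Pool.Agent.Run7.h663.SPL.Lac

/-!
Integers composed of lacunary pairwise coprime bases: the critical range.
-/

set_option autoImplicit false

namespace Run7.h663.SPL

open Finset
open scoped Pointwise

/-- constant lacunarity -/
theorem main_lac (d : ℕ) (δ : ℝ) (hδ : 0 < δ) : ∃ c : ℝ, 0 < c ∧
    ∀ (m m' : ℕ) (g g' : ℕ → ℕ), (∀ j < m, 2 ≤ g j) → (∀ j < m', 2 ≤ g' j) →
      (∀ i < m, ∀ j < m, i ≠ j → (g i).Coprime (g j)) →
      (∀ i < m', ∀ j < m', i ≠ j → (g' i).Coprime (g' j)) →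
      (∀ j, j + 1 < m → (g j : ℝ) ^ (1 + δ) ≤ g (j + 1)) →
      (∀ j, j + 1 < m' → (g' j : ℝ) ^ (1 + δ) ≤ g' (j + 1)) →
      ∀ A B : Finset ℤ, Comp d m g A → Comp d m' g' B → ∀ s t : ℤ, s ≠ 0 → t ≠ 0 →
        c * (A.card * B.card) ≤ (((A.image fun a => s * a) + (B.image fun b => t * b)).card : ℝ) := by
  obtain ⟨W, hW⟩ := pow_unbounded_of_one_lt ((d : ℝ) * (1 + δ) / δ + 1) (show 1 < 1 + δ by linarith)
  have hpw : (1 + δ) ^ W ≤ (1 + δ) ^ (W + 1) := pow_le_pow_right₀ (by linarith) (by omega)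
  have hpos : (0 : ℝ) < 36 * (W + 1 : ℕ) * (d + 1) ^ (2 * (W + 1)) := by positivity
  refine ⟨1 / (36 * (W + 1 : ℕ) * (d + 1) ^ (2 * (W + 1))), by positivity, ?_⟩
  intro m m' g g' h2 h2' hc hc' hg hg' A B hA hB s t hs ht
  have hS := sepa_of (W := W + 1) hδ h2 hc hg (hW.le.trans hpw)
  have hS' := sepa_of (W := W + 1) hδ h2' hc' hg' (hW.le.trans hpw)
  have h := main_sep (by omega) hS hS' A B hA hB hs ht
  have h' : (A.card : ℝ) * B.card ≤ 36 * ((W + 1 : ℕ) : ℝ) * (d + 1) ^ (2 * (W + 1)) *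
      (((A.image fun a => s * a) + (B.image fun b => t * b)).card : ℝ) := by exact_mod_cast h
  rw [one_div_mul_eq_div, div_le_iff₀ hpos]
  linarith

/-- the size of the windows in the critical range -/
theorem window {m d : ℕ} {K1 : ℝ} (hm : 2 ≤ m) (hK1 : (d : ℝ) + 1 ≤ K1) :
    d * (1 + 8 * K1 * Real.log m / m) / (8 * K1 * Real.log m / m) + 1 ≤
      (1 + 8 * K1 * Real.log m / m) ^ (⌈(m : ℝ) / K1⌉₊ + (2 * d + 2)) := by
  have hd0 : (0 : ℝ) ≤ d := Nat.cast_nonneg _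
  have hm2 : (2 : ℝ) ≤ m := by exact_mod_cast hm
  have hm0 : (0 : ℝ) < m := by linarith
  have hlog2 : (0.6931471803 : ℝ) < Real.log 2 := Real.log_two_gt_d9
  have hlm : Real.log 2 ≤ Real.log m := Real.log_le_log (by norm_num) hm2
  have hl0 : 0 < Real.log m := by linarith
  have hK0 : 0 < K1 := by linarith
  obtain ⟨δ, hδ⟩ : ∃ δ : ℝ, δ = 8 * K1 * Real.log m / m := ⟨_, rfl⟩
  have hδ0 : 0 < δ := by rw [hδ]; positivity
  rw [← hδ]
  obtain ⟨W, hW⟩ : ∃ W : ℕ, W = ⌈(m : ℝ) / K1⌉₊ + (2 * d + 2) := ⟨_, rfl⟩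
  rw [← hW]
  have hWm : (m : ℝ) / K1 ≤ W := by
    have h1 := Nat.le_ceil ((m : ℝ) / K1)
    rw [hW]
    push_cast
    linarith
  rcases le_or_gt 1 δ with h1 | h1
  · have h2 : d * (1 + δ) / δ ≤ 2 * d := by
      rw [div_le_iff₀ hδ0]
      nlinarith
    have h3 : (2 * d + 2 : ℕ) ≤ W := by omega
    have h4 : (2 : ℝ) ^ W ≤ (1 + δ) ^ W := pow_le_pow_left₀ (by norm_num) (by linarith) _
    have h5 : (2 * d + 1 : ℕ) ≤ 2 ^ W := by
      calc 2 * d + 1 ≤ 2 * d + 2 := by omega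
        _ ≤ 2 ^ (2 * d + 2) := Nat.lt_two_pow_self.le
        _ ≤ 2 ^ W := Nat.pow_le_pow_right (by norm_num) h3
    have h6 : (2 * d + 1 : ℝ) ≤ 2 ^ W := by exact_mod_cast h5
    linarith
  · have h2 : δ / 2 ≤ Real.log (1 + δ) := by
      have h3 := Real.one_sub_inv_le_log_of_pos (show 0 < 1 + δ by linarith)
      refine le_trans ?_ h3
      rw [le_sub_iff_add_le, ← le_sub_iff_add_le', inv_le_iff_one_le_mul₀ (by linarith)]
      nlinarith
    have h3 : (m : ℝ) ^ 4 ≤ (1 + δ) ^ W := by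
      have e1 : Real.log ((m : ℝ) ^ 4) ≤ Real.log ((1 + δ) ^ W) := by
        rw [Real.log_pow, Real.log_pow]
        push_cast
        have h4 : (W : ℝ) * (δ / 2) ≤ W * Real.log (1 + δ) :=
          mul_le_mul_of_nonneg_left h2 (Nat.cast_nonneg _)
        have h5 : (m : ℝ) / K1 * (δ / 2) ≤ W * (δ / 2) :=
          mul_le_mul_of_nonneg_right hWm (by positivity)
        have h6 : (m : ℝ) / K1 * (δ / 2) = 4 * Real.log m := by
          rw [hδ]
          field_simp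
          ring
        linarith
      exact (Real.log_le_log_iff (by positivity) (by positivity)).mp e1
    refine le_trans ?_ h3
    have h4 : d * (1 + δ) / δ ≤ 2 * d / δ :=
      div_le_div_of_nonneg_right (by nlinarith) hδ0.le
    have h5 : 2 * d / δ ≤ m := by
      rw [div_le_iff₀ hδ0, hδ]
      have e : (m : ℝ) * (8 * K1 * Real.log m / m) = 8 * K1 * Real.log m := by field_simp
      rw [e]
      nlinarith
    have h6 : (m : ℝ) + 1 ≤ m ^ 4 := by
      have h7 : (2 : ℝ) * m ≤ m * m := by nlinarith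
      have h8 : (1 : ℝ) * (m * m) ≤ (m * m) * (m * m) :=
        mul_le_mul_of_nonneg_right (by nlinarith) (by positivity)
      have e : (m : ℝ) ^ 4 = (m * m) * (m * m) := by ring
      rw [e]
      linarith
    linarith

/-- **The critical range.** -/
theorem main_crit (d : ℕ) (C ε : ℝ) (hC : 0 < C) (hε : 0 < ε) : ∃ K c : ℝ, 0 < K ∧ 0 < c ∧
    ∀ (m : ℕ) (g : ℕ → ℕ), 2 ≤ m → (∀ j < m, 2 ≤ g j) →
      (∀ i < m, ∀ j < m, i ≠ j → (g i).Coprime (g j)) →
      (∀ j, j + 1 < m → (g j : ℝ) ^ (1 + K * Real.log m / m) ≤ g (j + 1)) →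
      ∀ A : Finset ℤ, Comp d m g A → (m : ℝ) ≤ C * Real.log A.card →
        c * (A.card : ℝ) ^ (2 - ε) ≤ ((A + A).card : ℝ) := by
  classical
  have hd0 : (0 : ℝ) ≤ d := Nat.cast_nonneg _
  have hld : 0 ≤ Real.log ((d : ℝ) + 1) := Real.log_nonneg (by linarith)
  obtain ⟨K1, hK1⟩ : ∃ K1 : ℝ, K1 = (d + 1) + 8 * C * Real.log ((d : ℝ) + 1) / ε := ⟨_, rfl⟩
  have hK1d : (d : ℝ) + 1 ≤ K1 := by
    rw [hK1]
    have : 0 ≤ 8 * C * Real.log ((d : ℝ) + 1) / ε := by positivity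
    linarith
  have hK10 : 0 < K1 := by linarith
  obtain ⟨F, hF⟩ : ∃ F : ℝ, F = 36 * (2 * d + 3 + 4 * C / ε) *
    Real.exp (2 * (2 * d + 3) * Real.log ((d : ℝ) + 1)) := ⟨_, rfl⟩
  have hF0 : 0 < F := by rw [hF]; positivity
  refine ⟨8 * K1, 1 / F, by positivity, by positivity, ?_⟩
  intro m g hm h2 hcop hg A hA hmA
  have hm2 : (2 : ℝ) ≤ m := by exact_mod_cast hm
  have hlogm : 0 < Real.log m := Real.log_pos (by linarith)
  have hL : 0 < Real.log A.card := by
    by_contra hcon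
    push Not at hcon
    nlinarith
  have hA1 : (1 : ℝ) < A.card := by
    by_contra hcon
    push Not at hcon
    have := Real.log_nonpos (Nat.cast_nonneg A.card) hcon
    linarith
  obtain ⟨W, hW⟩ : ∃ W : ℕ, W = ⌈(m : ℝ) / K1⌉₊ + (2 * d + 2) := ⟨_, rfl⟩
  have hwin := window (d := d) hm hK1d
  rw [← hW] at hwin
  have hS := sepa_of (W := W) (by positivity) h2 hcop hg hwin
  have h := main_sep (by omega) hS hS A A hA hA (s := 1) (t := 1) one_ne_zero one_ne_zero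
  simp only [one_mul, Finset.image_id'] at h
  have hR : (A.card : ℝ) * A.card ≤ 36 * W * (d + 1) ^ (2 * W) * ((A + A).card : ℝ) := by
    exact_mod_cast h
  -- the size of `W`
  have hWup : (W : ℝ) ≤ m / K1 + (2 * d + 3) := by
    have h1 := Nat.ceil_lt_add_one (show 0 ≤ (m : ℝ) / K1 by positivity)
    rw [hW]
    push_cast
    linarith
  obtain ⟨L, hLd⟩ : ∃ L : ℝ, L = Real.log A.card := ⟨_, rfl⟩
  rw [← hLd] at hmA hL
  have hAL : (A.card : ℝ) = Real.exp L := by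
    rw [hLd, Real.exp_log (by linarith)]
  have h3 : 2 * (m / K1) * Real.log ((d : ℝ) + 1) ≤ ε * L / 4 := by
    have h4 : Real.log ((d : ℝ) + 1) * (8 * C) ≤ ε * K1 := by
      rw [hK1, mul_add, mul_div_cancel₀ _ hε.ne']
      have : 0 ≤ ε * ((d : ℝ) + 1) := by positivity
      linarith
    rw [mul_div_assoc', div_mul_eq_mul_div, div_le_iff₀ hK10]
    have h5 : 2 * (m : ℝ) * Real.log ((d : ℝ) + 1) ≤ 2 * (C * L) * Real.log ((d : ℝ) + 1) :=
      mul_le_mul_of_nonneg_right (by linarith) hld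
    have h6 : L * (Real.log ((d : ℝ) + 1) * (8 * C)) ≤ L * (ε * K1) :=
      mul_le_mul_of_nonneg_left h4 hL.le
    linarith
  have h4 : ((d : ℝ) + 1) ^ (2 * W) ≤
      Real.exp (2 * (2 * d + 3) * Real.log ((d : ℝ) + 1)) * Real.exp (ε * L / 4) := by
    have e1 : ((d : ℝ) + 1) ^ (2 * W) = Real.exp ((2 * W : ℕ) * Real.log ((d : ℝ) + 1)) := by
      rw [Real.exp_nat_mul, Real.exp_log (by linarith)]
    rw [e1, ← Real.exp_add]
    apply Real.exp_le_exp.mpr
    push_cast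
    have h5 : 2 * (W : ℝ) * Real.log ((d : ℝ) + 1) ≤
        2 * (m / K1 + (2 * d + 3)) * Real.log ((d : ℝ) + 1) :=
      mul_le_mul_of_nonneg_right (by linarith) hld
    have e2 : 2 * (m / K1 + (2 * d + 3)) * Real.log ((d : ℝ) + 1) =
        2 * (m / K1) * Real.log ((d : ℝ) + 1) + 2 * (2 * d + 3) * Real.log ((d : ℝ) + 1) := by ring
    linarith
  have h5 : (W : ℝ) ≤ (2 * d + 3 + 4 * C / ε) * Real.exp (ε * L / 4) := by
    have h6 : ε * L / 4 ≤ Real.exp (ε * L / 4) := by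
      have := Real.add_one_le_exp (ε * L / 4)
      linarith
    have h7 : 1 ≤ Real.exp (ε * L / 4) := Real.one_le_exp (by positivity)
    have h8 : (m : ℝ) / K1 ≤ m := by
      rw [div_le_iff₀ hK10]
      nlinarith
    have h9 : C * L ≤ 4 * C / ε * Real.exp (ε * L / 4) := by
      have e : C * L = 4 * C / ε * (ε * L / 4) := by field_simp
      rw [e]
      exact mul_le_mul_of_nonneg_left h6 (by positivity)
    have h10 : (2 * (d : ℝ) + 3) * 1 ≤ (2 * d + 3) * Real.exp (ε * L / 4) :=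
      mul_le_mul_of_nonneg_left h7 (by positivity)
    rw [add_mul]
    linarith
  have hS0 : (0 : ℝ) ≤ ((A + A).card : ℝ) := Nat.cast_nonneg _
  have h6 : (A.card : ℝ) * A.card ≤ F * Real.exp (ε * L) * ((A + A).card : ℝ) := by
    refine hR.trans (mul_le_mul_of_nonneg_right ?_ hS0)
    have e : Real.exp (ε * L) = Real.exp (ε * L / 4) * Real.exp (ε * L / 4) *
        Real.exp (ε * L / 2) := by
      rw [← Real.exp_add, ← Real.exp_add]
      congr 1
      ring
    have h7 : 1 ≤ Real.exp (ε * L / 2) := Real.one_le_exp (by positivity)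
    calc 36 * (W : ℝ) * (d + 1) ^ (2 * W) ≤
          36 * ((2 * d + 3 + 4 * C / ε) * Real.exp (ε * L / 4)) *
          (Real.exp (2 * (2 * d + 3) * Real.log ((d : ℝ) + 1)) * Real.exp (ε * L / 4)) := by
          apply mul_le_mul _ h4 (by positivity) (by positivity)
          linarith
      _ = F * (Real.exp (ε * L / 4) * Real.exp (ε * L / 4)) * 1 := by rw [hF]; ring
      _ ≤ F * (Real.exp (ε * L / 4) * Real.exp (ε * L / 4)) * Real.exp (ε * L / 2) :=
          mul_le_mul_of_nonneg_left h7 (by positivity)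
      _ = _ := by rw [e]; ring
  have e1 : (A.card : ℝ) ^ (2 - ε) = A.card * A.card * Real.exp (-(ε * L)) := by
    rw [hAL, ← Real.exp_mul, ← Real.exp_add, ← Real.exp_add]
    congr 1
    ring
  rw [e1, one_div_mul_eq_div, div_le_iff₀ hF0]
  calc (A.card : ℝ) * A.card * Real.exp (-(ε * L)) ≤
        F * Real.exp (ε * L) * ((A + A).card : ℝ) * Real.exp (-(ε * L)) :=
        mul_le_mul_of_nonneg_right h6 (Real.exp_pos _).le
    _ = ((A + A).card : ℝ) * F * (Real.exp (ε * L) * Real.exp (-(ε * L))) := by ring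
    _ = ((A + A).card : ℝ) * F := by rw [← Real.exp_add, add_neg_cancel, Real.exp_zero, mul_one]

end Run7.h663.SPL
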