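import Mathlib

/-!
Integers composed of separated pairwise coprime bases: uniqueness of differences.
-/

set_option autoImplicit false

namespace Run7.h663.SPL

open Finset

/-- `∏_{j < k} g j ^ x j` -/
def val (g : ℕ → ℕ) (k : ℕ) (x : ℕ → ℕ) : ℕ := ∏ j ∈ range k, g j ^ x j

/-- A finite set of integers composed of the bases `g j`, `j < m`. -/
structure Dat where
  /-- the bases -/
  g : ℕ → ℕ
  /-- their number -/
  m : ℕ
  /-- the width of the windows -/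
  W : ℕ
  /-- the bound for the exponents -/
  d : ℕ
  /-- the set -/
  A : Finset ℤ
  /-- the exponents -/
  ξ : ℤ → ℕ → ℕ
  hW : 1 ≤ W
  two : ∀ j < m, 2 ≤ g j
  cop : ∀ i < m, ∀ j < m, i ≠ j → (g i).Coprime (g j)
  hv : ∀ a ∈ A, (val g m (ξ a) : ℤ) = a
  hd : ∀ a ∈ A, ∀ j < m, ξ a j ≤ d
  h2 : ∀ a ∈ A, ∀ b ∈ A, ∀ i < m,
    (g i : ℤ) ∣ (val g (i + 1 - W) (ξ a) : ℤ) - val g (i + 1 - W) (ξ b) →
    (val g (i + 1 - W) (ξ a) : ℤ) = val g (i + 1 - W) (ξ b)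
  h3 : ∀ a ∈ A, ∀ b ∈ A, ∀ c ∈ A, ∀ i < m,
    (g i : ℤ) ∣ (val g (i + 1 - W) (ξ a) : ℤ) + val g (i + 1 - W) (ξ b) -
      val g (i + 1 - W) (ξ c) →
    (val g (i + 1 - W) (ξ a) : ℤ) + val g (i + 1 - W) (ξ b) = val g (i + 1 - W) (ξ c)

variable (D : Dat)

theorem val_split (g : ℕ → ℕ) {k m : ℕ} (h : k ≤ m) (x : ℕ → ℕ) :
    val g m x = val g k x * ∏ j ∈ Ico k m, g j ^ x j :=
  (Finset.prod_range_mul_prod_Ico _ h).symm

/-- the product over a set which contains `i` -/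
theorem pull (x : ℕ → ℕ) (s : Finset ℕ) (hs : ∀ j ∈ s, j < D.m) {i : ℕ} (hi : i ∈ s) :
    ∃ R : ℤ, ((∏ j ∈ s, D.g j ^ x j : ℕ) : ℤ) = (D.g i : ℤ) ^ x i * R ∧ IsCoprime (D.g i : ℤ) R := by
  refine ⟨((∏ j ∈ s.erase i, D.g j ^ x j : ℕ) : ℤ), ?_, ?_⟩
  · rw [← Finset.mul_prod_erase s _ hi]
    push_cast
    rfl
  · rw [Nat.isCoprime_iff_coprime]
    apply Nat.Coprime.prod_right
    intro j hj
    rw [Finset.mem_erase] at hj
    exact Nat.Coprime.pow_right _ (D.cop i (hs i hi) j (hs j hj.2) (Ne.symm hj.1))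

theorem fac {a : ℤ} (ha : a ∈ D.A) {i : ℕ} (hi : i < D.m) :
    ∃ R : ℤ, a = (D.g i : ℤ) ^ D.ξ a i * R ∧ IsCoprime (D.g i : ℤ) R := by
  obtain ⟨R, h1, h2⟩ := pull D (D.ξ a) (range D.m) (fun j hj => Finset.mem_range.mp hj)
    (Finset.mem_range.mpr hi)
  refine ⟨R, ?_, h2⟩
  rw [← h1]
  exact (D.hv a ha).symm

/-- the upper part -/
theorem upper {a : ℤ} (ha : a ∈ D.A) {i : ℕ} (hi : i < D.m) :
    ∃ R : ℤ, IsCoprime (D.g i : ℤ) R ∧
      ((∏ j ∈ Ico (i + 1 - D.W) D.m, D.g j ^ D.ξ a j : ℕ) : ℤ) = (D.g i : ℤ) ^ D.ξ a i * R ∧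
      a = val D.g (i + 1 - D.W) (D.ξ a) * ((D.g i : ℤ) ^ D.ξ a i * R) := by
  have hW := D.hW
  obtain ⟨R, h1, h2⟩ := pull D (D.ξ a) (Ico (i + 1 - D.W) D.m)
    (fun j hj => (Finset.mem_Ico.mp hj).2) (i := i)
    (Finset.mem_Ico.mpr ⟨by omega, hi⟩)
  refine ⟨R, h2, h1, ?_⟩
  rw [← h1]
  have h3 := D.hv a ha
  rw [val_split D.g (show i + 1 - D.W ≤ D.m by omega)] at h3
  push_cast at h3 ⊢
  exact h3.symm

theorem upper_congr {a a' : ℤ} {k : ℕ} (h : ∀ j, k ≤ j → j < D.m → D.ξ a j = D.ξ a' j) :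
    ∏ j ∈ Ico k D.m, D.g j ^ D.ξ a j = ∏ j ∈ Ico k D.m, D.g j ^ D.ξ a' j := by
  refine Finset.prod_congr rfl fun j hj => ?_
  rw [Finset.mem_Ico] at hj
  rw [h j hj.1 hj.2]

theorem gpos {i : ℕ} (hi : i < D.m) : (0 : ℤ) < D.g i := by
  have := D.two i hi
  exact_mod_cast (show 0 < D.g i by omega)

/-- one half of the uniqueness lemma -/
theorem uniq_half {a a' c c' : ℤ} (ha : a ∈ D.A) (ha' : a' ∈ D.A) (hc : c ∈ D.A)
    (hc' : c' ∈ D.A) {i : ℕ} (hi : i < D.m)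
    (h1 : ∀ j, i + 1 - D.W ≤ j → j < D.m → D.ξ a j = D.ξ a' j)
    (h2 : ∀ j, i + 1 - D.W ≤ j → j < D.m → D.ξ c j = D.ξ c' j)
    (hne : D.ξ a i < D.ξ c i) (h : a - c = a' - c') : a = a' := by
  have hW := D.hW
  obtain ⟨U, hU1, hU2, hU3⟩ := upper D ha hi
  obtain ⟨U', hU'1, hU'2, hU'3⟩ := upper D ha' hi
  obtain ⟨V, hV1, hV2, hV3⟩ := upper D hc hi
  obtain ⟨V', hV'1, hV'2, hV'3⟩ := upper D hc' hi
  rw [upper_congr D h1] at hU2
  rw [upper_congr D h2] at hV2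
  have eU : (D.g i : ℤ) ^ D.ξ a' i * U' = (D.g i : ℤ) ^ D.ξ a i * U := by rw [← hU'2, hU2]
  have eV : (D.g i : ℤ) ^ D.ξ c' i * V' = (D.g i : ℤ) ^ D.ξ c i * V := by rw [← hV'2, hV2]
  rw [eU] at hU'3
  rw [eV] at hV'3
  set u : ℤ := ((val D.g (i + 1 - D.W) (D.ξ a) : ℕ) : ℤ) with hu
  set u' : ℤ := ((val D.g (i + 1 - D.W) (D.ξ a') : ℕ) : ℤ) with hu'
  set w : ℤ := ((val D.g (i + 1 - D.W) (D.ξ c) : ℕ) : ℤ) with hw
  set w' : ℤ := ((val D.g (i + 1 - D.W) (D.ξ c') : ℕ) : ℤ) with hw'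
  have hg := gpos D hi
  have e1 : (u - u') * ((D.g i : ℤ) ^ D.ξ a i * U) = (w - w') * ((D.g i : ℤ) ^ D.ξ c i * V) := by
    linear_combination h - hU3 + hU'3 + hV3 - hV'3
  obtain ⟨t, ht⟩ : ∃ t, D.ξ c i = D.ξ a i + (t + 1) := ⟨D.ξ c i - D.ξ a i - 1, by omega⟩
  rw [ht, pow_add] at e1
  have e2 : (D.g i : ℤ) ^ D.ξ a i * ((u - u') * U) =
      (D.g i : ℤ) ^ D.ξ a i * ((w - w') * ((D.g i : ℤ) ^ (t + 1) * V)) := by
    calc _ = (u - u') * ((D.g i : ℤ) ^ D.ξ a i * U) := by ring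
      _ = _ := by rw [e1]; ring
  have e3 := mul_left_cancel₀ (pow_ne_zero _ hg.ne') e2
  have e4 : (D.g i : ℤ) ∣ (u - u') * U := by
    rw [e3, pow_succ]
    exact ⟨(w - w') * ((D.g i : ℤ) ^ t * V), by ring⟩
  have e5 : (D.g i : ℤ) ∣ u - u' := hU1.dvd_of_dvd_mul_right e4
  have e6 : u = u' := D.h2 a ha a' ha' i hi e5
  linear_combination hU3 - hU'3 + ((D.g i : ℤ) ^ D.ξ a i * U) * e6

/-- differences determine the pair, given the exponents from the window on -/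
theorem uniq {a a' c c' : ℤ} (ha : a ∈ D.A) (ha' : a' ∈ D.A) (hc : c ∈ D.A)
    (hc' : c' ∈ D.A) {i : ℕ} (hi : i < D.m)
    (h1 : ∀ j, i + 1 - D.W ≤ j → j < D.m → D.ξ a j = D.ξ a' j)
    (h2 : ∀ j, i + 1 - D.W ≤ j → j < D.m → D.ξ c j = D.ξ c' j)
    (hne : D.ξ a i ≠ D.ξ c i) (h : a - c = a' - c') : a = a' ∧ c = c' := by
  rcases lt_or_gt_of_ne hne with h3 | h3
  · have := uniq_half D ha ha' hc hc' hi h1 h2 h3 h
    exact ⟨this, by linarith⟩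
  · have := uniq_half D hc hc' ha ha' hi h2 h1 h3 (by linarith)
    exact ⟨by linarith, this⟩

/-- the least exponent is attained at least twice -/
theorem low {a b c e : ℤ} (ha : a ∈ D.A) (hb : b ∈ D.A) (hc : c ∈ D.A) (he : e ∈ D.A) {i : ℕ}
    (hi : i < D.m) (hab : D.ξ a i < D.ξ b i) (hac : D.ξ a i < D.ξ c i)
    (hae : D.ξ a i < D.ξ e i) (s t u : ℤ) (h : a = s * b + t * c + u * e) : False := by
  have key : ∀ x ∈ D.A, D.ξ a i < D.ξ x i → (D.g i : ℤ) ^ (D.ξ a i + 1) ∣ x := by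
    intro x hx hlt
    obtain ⟨R, h1, -⟩ := fac D hx hi
    rw [h1]
    exact (pow_dvd_pow _ hlt).trans (Dvd.intro _ rfl)
  have h1 : (D.g i : ℤ) ^ (D.ξ a i + 1) ∣ s * b + t * c + u * e :=
    dvd_add (dvd_add ((key b hb hab).mul_left _) ((key c hc hac).mul_left _))
      ((key e he hae).mul_left _)
  rw [← h] at h1
  obtain ⟨R, h2, h3⟩ := fac D ha hi
  have hg := gpos D hi
  rw [pow_succ] at h1
  nth_rewrite 2 [h2] at h1
  have h4 : (D.g i : ℤ) ∣ R := (mul_dvd_mul_iff_left (pow_ne_zero _ hg.ne')).mp h1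
  have h5 : IsUnit (D.g i : ℤ) := h3.isUnit_of_dvd' dvd_rfl h4
  have h6 := D.two i hi
  rw [Int.isUnit_iff] at h5
  omega

/-- three elements which agree from the window on -/
theorem near {a b c e : ℤ} (ha : a ∈ D.A) (hb : b ∈ D.A) (hc : c ∈ D.A) (he : e ∈ D.A) {i : ℕ}
    (hi : i < D.m) (hab : D.ξ b i < D.ξ a i)
    (hall : ∀ j, i + 1 - D.W ≤ j → j < D.m → D.ξ b j = D.ξ c j ∧ D.ξ b j = D.ξ e j)
    (h : a + b = c + e) : False := by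
  obtain ⟨U, hU1, hU2, hU3⟩ := upper D hb hi
  obtain ⟨V, hV1, hV2, hV3⟩ := upper D hc hi
  obtain ⟨T, hT1, hT2, hT3⟩ := upper D he hi
  rw [← upper_congr D fun j h1 h2 => (hall j h1 h2).1, hU2] at hV2
  rw [← upper_congr D fun j h1 h2 => (hall j h1 h2).2, hU2] at hT2
  rw [← hV2] at hV3
  rw [← hT2] at hT3
  obtain ⟨R, h2, h3⟩ := fac D ha hi
  have hg := gpos D hi
  set x : ℤ := ((val D.g (i + 1 - D.W) (D.ξ b) : ℕ) : ℤ) with hx
  set y : ℤ := ((val D.g (i + 1 - D.W) (D.ξ c) : ℕ) : ℤ) with hy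
  set z : ℤ := ((val D.g (i + 1 - D.W) (D.ξ e) : ℕ) : ℤ) with hz
  obtain ⟨t, ht⟩ : ∃ t, D.ξ a i = D.ξ b i + (t + 1) := ⟨D.ξ a i - D.ξ b i - 1, by omega⟩
  have e1 : a = (y + z - x) * ((D.g i : ℤ) ^ D.ξ b i * U) := by
    linear_combination h - hU3 + hV3 + hT3
  have e2 : (D.g i : ℤ) ^ D.ξ b i * ((y + z - x) * U) =
      (D.g i : ℤ) ^ D.ξ b i * ((D.g i : ℤ) ^ (t + 1) * R) := by
    calc _ = (y + z - x) * ((D.g i : ℤ) ^ D.ξ b i * U) := by ring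
      _ = a := e1.symm
      _ = (D.g i : ℤ) ^ D.ξ a i * R := h2
      _ = _ := by rw [ht]; ring
  have e3 := mul_left_cancel₀ (pow_ne_zero _ hg.ne') e2
  have e4 : (D.g i : ℤ) ∣ (y + z - x) * U := by
    rw [e3, pow_succ]
    exact ⟨(D.g i : ℤ) ^ t * R, by ring⟩
  have e5 : (D.g i : ℤ) ∣ y + z - x := hU1.dvd_of_dvd_mul_right e4
  have e6 : y + z = x := D.h3 c hc e he b hb i hi e5
  have e7 : a = 0 := by linear_combination e1 + ((D.g i : ℤ) ^ D.ξ b i * U) * e6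
  have e8 := D.hv a ha
  rw [e7] at e8
  have e9 : 0 < val D.g D.m (D.ξ 0) := by
    unfold val
    apply Finset.prod_pos
    intro j hj
    have := D.two j (Finset.mem_range.mp hj)
    positivity
  rw [Int.natCast_eq_zero] at e8
  omega

theorem top {m : ℕ} (p : ℕ → Prop) (h : ∃ j < m, p j) :
    ∃ i < m, p i ∧ ∀ j, i < j → j < m → ¬ p j := by
  classical
  obtain ⟨j0, hj0, hp0⟩ := h
  obtain ⟨i, hi, hmax⟩ := Finset.exists_max_image ((range m).filter p) id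
    ⟨j0, Finset.mem_filter.mpr ⟨Finset.mem_range.mpr hj0, hp0⟩⟩
  rw [Finset.mem_filter, Finset.mem_range] at hi
  refine ⟨i, hi.1, hi.2, fun j hij hj hp => ?_⟩
  have := hmax j (Finset.mem_filter.mpr ⟨Finset.mem_range.mpr hj, hp⟩)
  simp only [id] at this
  omega

/-- the largest index at which the exponents differ -/
def td (x y : ℤ) : ℕ := ((range D.m).filter fun j => D.ξ x j ≠ D.ξ y j).sup id

theorem td_eq {x y : ℤ} {i : ℕ} (hi : i < D.m) (h : D.ξ x i ≠ D.ξ y i)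
    (hab : ∀ j, i < j → j < D.m → D.ξ x j = D.ξ y j) : td D x y = i := by
  unfold td
  apply le_antisymm
  · apply Finset.sup_le
    intro j hj
    rw [Finset.mem_filter, Finset.mem_range] at hj
    simp only [id]
    by_contra hcon
    push Not at hcon
    exact hj.2 (hab j hcon hj.1)
  · exact Finset.le_sup (f := id) (Finset.mem_filter.mpr ⟨Finset.mem_range.mpr hi, h⟩)

open Classical in
/-- the quadruples determined by their first two elements -/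
noncomputable def G4 (o : ℕ) : Finset ((ℤ × ℤ) × (ℤ × ℤ)) :=
  ((D.A ×ˢ D.A) ×ˢ (D.A ×ˢ D.A)).filter fun q =>
    q.1.1 + q.2.1 = q.1.2 + q.2.2 ∧ td D q.1.1 q.1.2 + o < D.m ∧
    D.ξ q.2.1 (td D q.1.1 q.1.2 + o) ≠ D.ξ q.2.2 (td D q.1.1 q.1.2 + o) ∧
    ∀ j, td D q.1.1 q.1.2 + o < j → j < D.m → D.ξ q.2.1 j = D.ξ q.1.1 j ∧ D.ξ q.2.2 j = D.ξ q.1.1 j

theorem mem_G4 {o : ℕ} {x y z w : ℤ} : ((x, y), (z, w)) ∈ G4 D o ↔
    ((x ∈ D.A ∧ y ∈ D.A) ∧ (z ∈ D.A ∧ w ∈ D.A)) ∧ x + z = y + w ∧ td D x y + o < D.m ∧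
    D.ξ z (td D x y + o) ≠ D.ξ w (td D x y + o) ∧
    ∀ j, td D x y + o < j → j < D.m → D.ξ z j = D.ξ x j ∧ D.ξ w j = D.ξ x j := by
  unfold G4
  simp only [Finset.mem_filter, Finset.mem_product]

/-- the exponents in the window -/
def pat (i : ℕ) (z : ℤ) : Fin D.W → Fin (D.d + 1) := fun k =>
  ⟨min (D.ξ z (i - k)) D.d, by omega⟩

theorem pat_eq {i : ℕ} {z z' : ℤ} (hz : z ∈ D.A) (hz' : z' ∈ D.A) (hi : i < D.m)
    (h : pat D i z = pat D i z') (j : ℕ) (hj : i + 1 - D.W ≤ j) (hji : j ≤ i) :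
    D.ξ z j = D.ξ z' j := by
  have h1 := congrFun h ⟨i - j, by have := D.hW; omega⟩
  unfold pat at h1
  simp only [Fin.mk.injEq] at h1
  have e : i - (i - j) = j := by omega
  rw [e] at h1
  have h2 := D.hd z hz j (by omega)
  have h3 := D.hd z' hz' j (by omega)
  omega

theorem card_G4 (o : ℕ) : (G4 D o).card ≤ D.A.card ^ 2 * ((D.d + 1) ^ D.W) ^ 2 := by
  classical
  have h1 : (((D.A ×ˢ D.A) ×ˢ (univ : Finset ((Fin D.W → Fin (D.d + 1)) ×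
      (Fin D.W → Fin (D.d + 1))))).card) = D.A.card ^ 2 * ((D.d + 1) ^ D.W) ^ 2 := by
    rw [Finset.card_product, Finset.card_product, Finset.card_univ, Fintype.card_prod,
      Fintype.card_fun, Fintype.card_fin, Fintype.card_fin]
    ring
  rw [← h1]
  refine Finset.card_le_card_of_injOn (fun q => (q.1, (pat D (td D q.1.1 q.1.2 + o) q.2.1,
    pat D (td D q.1.1 q.1.2 + o) q.2.2))) ?_ ?_
  · rintro ⟨⟨x, y⟩, ⟨z, w⟩⟩ hq
    rw [Finset.mem_coe, mem_G4] at hq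
    simp only [Finset.coe_product, Set.mem_prod, Finset.mem_coe, Finset.mem_univ, and_true]
    exact hq.1.1
  · rintro ⟨⟨x, y⟩, ⟨z, w⟩⟩ hq ⟨⟨x', y'⟩, ⟨z', w'⟩⟩ hq' heq
    rw [Finset.mem_coe, mem_G4] at hq hq'
    simp only [Prod.mk.injEq] at heq
    obtain ⟨⟨rfl, rfl⟩, h3, h4⟩ := heq
    obtain ⟨⟨hxy, hz, hw⟩, hs, hi, hne, hab⟩ := hq
    obtain ⟨⟨-, hz', hw'⟩, hs', -, -, hab'⟩ := hq'
    set i := td D x y + o with hidef
    have e1 : ∀ j, i + 1 - D.W ≤ j → j < D.m → D.ξ z j = D.ξ z' j := by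
      intro j hj hjm
      by_cases hji : j ≤ i
      · exact pat_eq D hz hz' hi h3 j hj hji
      · rw [(hab j (by omega) hjm).1, (hab' j (by omega) hjm).1]
    have e2 : ∀ j, i + 1 - D.W ≤ j → j < D.m → D.ξ w j = D.ξ w' j := by
      intro j hj hjm
      by_cases hji : j ≤ i
      · exact pat_eq D hw hw' hi h4 j hj hji
      · rw [(hab j (by omega) hjm).2, (hab' j (by omega) hjm).2]
    obtain ⟨r1, r2⟩ := uniq D hz hz' hw hw' hi e1 e2 hne (by linarith)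
    rw [r1, r2]

/-- one exponent is larger than the three others -/
theorem odd {a b c e : ℤ} (ha : a ∈ D.A) (hb : b ∈ D.A) (hc : c ∈ D.A) (he : e ∈ D.A) {i : ℕ}
    (hi : i < D.m) (hab : D.ξ b i < D.ξ a i) (hbc : D.ξ b i = D.ξ c i) (hbe : D.ξ b i = D.ξ e i)
    (habove : ∀ j, i < j → j < D.m → D.ξ a j = D.ξ b j ∧ D.ξ b j = D.ξ c j ∧ D.ξ b j = D.ξ e j)
    (h : a + b = c + e) :
    ∃ o < D.W, ((b, e), (a, c)) ∈ G4 D o ∨ ((b, c), (a, e)) ∈ G4 D o := by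
  have hW := D.hW
  have hex : ∃ j < D.m, ¬ (D.ξ b j = D.ξ c j ∧ D.ξ b j = D.ξ e j) ∧ i + 1 - D.W ≤ j := by
    by_contra hcon
    push Not at hcon
    refine near D ha hb hc he hi hab (fun j h1 h2 => ?_) h
    by_contra h3
    have := hcon j h2 (fun h4 h5 => h3 ⟨h4, h5⟩)
    omega
  obtain ⟨i', hi', ⟨hn, hlo⟩, hmax⟩ := top _ hex
  have hii : i' < i := by
    by_contra hcon
    push Not at hcon
    rcases hcon.lt_or_eq with h1 | h1
    · obtain ⟨-, h2, h3⟩ := habove i' h1 hi'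
      exact hn ⟨h2, h3⟩
    · rw [← h1] at hn
      exact hn ⟨hbc, hbe⟩
  have hagree : ∀ j, i' < j → j < D.m → D.ξ b j = D.ξ c j ∧ D.ξ b j = D.ξ e j := by
    intro j h1 h2
    by_contra h3
    exact hmax j h1 h2 ⟨h3, by omega⟩
  refine ⟨i - i', by omega, ?_⟩
  have ei : i' + (i - i') = i := by omega
  by_cases h4 : D.ξ b i' = D.ξ e i'
  · right
    have h5 : D.ξ b i' ≠ D.ξ c i' := fun h6 => hn ⟨h6, h4⟩
    have ht : td D b c = i' := td_eq D hi' h5 (fun j h1 h2 => (hagree j h1 h2).1)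
    rw [mem_G4, ht, ei]
    refine ⟨⟨⟨hb, hc⟩, ha, he⟩, by linarith, hi, by omega, fun j h1 h2 => ?_⟩
    obtain ⟨r1, r2, r3⟩ := habove j h1 h2
    exact ⟨r1, r3.symm⟩
  · left
    have ht : td D b e = i' := td_eq D hi' h4 (fun j h1 h2 => (hagree j h1 h2).2)
    rw [mem_G4, ht, ei]
    refine ⟨⟨⟨hb, he⟩, ha, hc⟩, by linarith, hi, by omega, fun j h1 h2 => ?_⟩
    obtain ⟨r1, r2, r3⟩ := habove j h1 h2
    exact ⟨r1, r2.symm⟩

end Run7.h663.SPL
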