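import Pool.Agent.Run7.h663.SPL.Core

/-!
Integers composed of separated pairwise coprime bases: the additive energy.
-/

set_option autoImplicit false

namespace Run7.h663.SPL

open Finset
open scoped Pointwise

variable (D : Dat)

/-- the quadruples of a nontrivial additive relation are determined by two elements -/
theorem classify {a b c e : ℤ} (ha : a ∈ D.A) (hb : b ∈ D.A) (hc : c ∈ D.A) (he : e ∈ D.A)
    (h : a + b = c + e) : (a = c ∧ a = b ∧ a = e) ∨ ∃ o < D.W,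
      ((b, e), (a, c)) ∈ G4 D o ∨ ((b, c), (a, e)) ∈ G4 D o ∨
      ((a, c), (b, e)) ∈ G4 D o ∨ ((a, e), (b, c)) ∈ G4 D o ∨
      ((e, a), (c, b)) ∈ G4 D o ∨ ((e, b), (c, a)) ∈ G4 D o ∨
      ((c, a), (e, b)) ∈ G4 D o ∨ ((c, b), (e, a)) ∈ G4 D o := by
  have hW := D.hW
  by_cases hex : ∃ j < D.m, ¬ (D.ξ a j = D.ξ b j ∧ D.ξ a j = D.ξ c j ∧ D.ξ a j = D.ξ e j)
  · right
    obtain ⟨i, hi, hn, hmax⟩ := top _ hex
    have hab : ∀ j, i < j → j < D.m →
        D.ξ a j = D.ξ b j ∧ D.ξ a j = D.ξ c j ∧ D.ξ a j = D.ξ e j := by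
      intro j h1 h2
      by_contra h3
      exact hmax j h1 h2 h3
    have l1 : ¬ (D.ξ a i < D.ξ b i ∧ D.ξ a i < D.ξ c i ∧ D.ξ a i < D.ξ e i) := fun hh =>
      low D ha hb hc he hi hh.1 hh.2.1 hh.2.2 (-1) 1 1 (by linarith)
    have l2 : ¬ (D.ξ b i < D.ξ a i ∧ D.ξ b i < D.ξ c i ∧ D.ξ b i < D.ξ e i) := fun hh =>
      low D hb ha hc he hi hh.1 hh.2.1 hh.2.2 (-1) 1 1 (by linarith)
    have l3 : ¬ (D.ξ c i < D.ξ a i ∧ D.ξ c i < D.ξ b i ∧ D.ξ c i < D.ξ e i) := fun hh =>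
      low D hc ha hb he hi hh.1 hh.2.1 hh.2.2 1 1 (-1) (by linarith)
    have l4 : ¬ (D.ξ e i < D.ξ a i ∧ D.ξ e i < D.ξ b i ∧ D.ξ e i < D.ξ c i) := fun hh =>
      low D he ha hb hc hi hh.1 hh.2.1 hh.2.2 1 1 (-1) (by linarith)
    have hcases : (D.ξ a i ≠ D.ξ c i ∧ D.ξ b i ≠ D.ξ e i) ∨
        (D.ξ a i ≠ D.ξ e i ∧ D.ξ b i ≠ D.ξ c i) ∨
        (D.ξ b i < D.ξ a i ∧ D.ξ b i = D.ξ c i ∧ D.ξ b i = D.ξ e i) ∨
        (D.ξ a i < D.ξ b i ∧ D.ξ a i = D.ξ c i ∧ D.ξ a i = D.ξ e i) ∨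
        (D.ξ e i < D.ξ c i ∧ D.ξ e i = D.ξ a i ∧ D.ξ e i = D.ξ b i) ∨
        (D.ξ c i < D.ξ e i ∧ D.ξ c i = D.ξ a i ∧ D.ξ c i = D.ξ b i) := by
      omega
    rcases hcases with h1 | h1 | h1 | h1 | h1 | h1
    · refine ⟨0, by omega, Or.inl ?_⟩
      have ht : td D b e = i := td_eq D hi h1.2 (fun j h2 h3 => by
        obtain ⟨r1, r2, r3⟩ := hab j h2 h3
        omega)
      rw [mem_G4, ht, add_zero]
      exact ⟨⟨⟨hb, he⟩, ha, hc⟩, by linarith, hi, h1.1, fun j h2 h3 => by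
        obtain ⟨r1, r2, r3⟩ := hab j h2 h3
        omega⟩
    · refine ⟨0, by omega, Or.inr (Or.inl ?_)⟩
      have ht : td D b c = i := td_eq D hi h1.2 (fun j h2 h3 => by
        obtain ⟨r1, r2, r3⟩ := hab j h2 h3
        omega)
      rw [mem_G4, ht, add_zero]
      exact ⟨⟨⟨hb, hc⟩, ha, he⟩, by linarith, hi, h1.1, fun j h2 h3 => by
        obtain ⟨r1, r2, r3⟩ := hab j h2 h3
        omega⟩
    · obtain ⟨o, ho, hor⟩ := odd D ha hb hc he hi h1.1 h1.2.1 h1.2.2 (fun j h2 h3 => by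
        obtain ⟨r1, r2, r3⟩ := hab j h2 h3
        omega) h
      refine ⟨o, ho, ?_⟩
      rcases hor with h2 | h2
      · exact Or.inl h2
      · exact Or.inr (Or.inl h2)
    · obtain ⟨o, ho, hor⟩ := odd D hb ha hc he hi h1.1 h1.2.1 h1.2.2 (fun j h2 h3 => by
        obtain ⟨r1, r2, r3⟩ := hab j h2 h3
        omega) (by linarith)
      refine ⟨o, ho, ?_⟩
      rcases hor with h2 | h2
      · exact Or.inr (Or.inr (Or.inr (Or.inl h2)))
      · exact Or.inr (Or.inr (Or.inl h2))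
    · obtain ⟨o, ho, hor⟩ := odd D hc he ha hb hi h1.1 h1.2.1 h1.2.2 (fun j h2 h3 => by
        obtain ⟨r1, r2, r3⟩ := hab j h2 h3
        omega) (by linarith)
      refine ⟨o, ho, ?_⟩
      rcases hor with h2 | h2
      · exact Or.inr (Or.inr (Or.inr (Or.inr (Or.inr (Or.inl h2)))))
      · exact Or.inr (Or.inr (Or.inr (Or.inr (Or.inl h2))))
    · obtain ⟨o, ho, hor⟩ := odd D he hc ha hb hi h1.1 h1.2.1 h1.2.2 (fun j h2 h3 => by
        obtain ⟨r1, r2, r3⟩ := hab j h2 h3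
        omega) (by linarith)
      refine ⟨o, ho, ?_⟩
      rcases hor with h2 | h2
      · exact Or.inr (Or.inr (Or.inr (Or.inr (Or.inr (Or.inr (Or.inr h2))))))
      · exact Or.inr (Or.inr (Or.inr (Or.inr (Or.inr (Or.inr (Or.inl h2))))))
  · left
    push Not at hex
    have key : ∀ x ∈ D.A, (∀ j < D.m, D.ξ a j = D.ξ x j) → a = x := by
      intro x hx hj
      rw [← D.hv a ha, ← D.hv x hx]
      unfold val
      congr 1
      exact Finset.prod_congr rfl fun j hj' => by rw [hj j (Finset.mem_range.mp hj')]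
    exact ⟨key c hc fun j hj => (hex j hj).2.1, key b hb fun j hj => (hex j hj).1,
      key e he fun j hj => (hex j hj).2.2⟩

/-- the eight arrangements of the quadruple `((a, c), (b, e))` -/
def arr (k : Fin 8) (q : (ℤ × ℤ) × (ℤ × ℤ)) : (ℤ × ℤ) × (ℤ × ℤ) :=
  match k with
  | 0 => ((q.2.1, q.2.2), (q.1.1, q.1.2))
  | 1 => ((q.2.1, q.1.2), (q.1.1, q.2.2))
  | 2 => ((q.1.1, q.1.2), (q.2.1, q.2.2))
  | 3 => ((q.1.1, q.2.2), (q.2.1, q.1.2))
  | 4 => ((q.2.2, q.1.1), (q.1.2, q.2.1))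
  | 5 => ((q.2.2, q.2.1), (q.1.2, q.1.1))
  | 6 => ((q.1.2, q.1.1), (q.2.2, q.2.1))
  | 7 => ((q.1.2, q.2.1), (q.2.2, q.1.1))

theorem arr_inj (k : Fin 8) : Function.Injective (arr k) := by
  rintro ⟨⟨a, c⟩, ⟨b, e⟩⟩ ⟨⟨a', c'⟩, ⟨b', e'⟩⟩ h
  fin_cases k <;> simp only [arr, Prod.mk.injEq] at h ⊢ <;> tauto

open Classical in
/-- **The additive energy.** -/
theorem energy : addEnergy D.A D.A ≤ 9 * D.W * ((D.d + 1) ^ D.W) ^ 2 * D.A.card ^ 2 := by
  set N := D.A.card with hN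
  set P := ((D.d + 1) ^ D.W) ^ 2 with hP
  set G : Finset ((ℤ × ℤ) × (ℤ × ℤ)) := (range D.W).biUnion (G4 D) with hG
  have hGc : G.card ≤ D.W * (N ^ 2 * P) := by
    refine Finset.card_biUnion_le.trans ?_
    refine (Finset.sum_le_sum fun o _ => card_G4 D o).trans ?_
    rw [Finset.sum_const, Finset.card_range, smul_eq_mul]
  set Q := ((D.A ×ˢ D.A) ×ˢ D.A ×ˢ D.A).filter
    (fun x => x.1.1 + x.2.1 = x.1.2 + x.2.2) with hQ
  have hE : addEnergy D.A D.A = Q.card := rfl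
  rw [hE]
  set Dg := Q.filter (fun q => q.1.1 = q.1.2 ∧ q.1.1 = q.2.1 ∧ q.1.1 = q.2.2) with hDg
  have hsub : Q ⊆ Dg ∪ (univ : Finset (Fin 8)).biUnion fun k => Q.filter fun q => arr k q ∈ G := by
    rintro ⟨⟨a, c⟩, ⟨b, e⟩⟩ hq
    have hq' := hq
    rw [hQ, Finset.mem_filter, Finset.mem_product, Finset.mem_product, Finset.mem_product] at hq'
    obtain ⟨⟨⟨ha, hc⟩, hb, he⟩, hs⟩ := hq'
    simp only at ha hc hb he hs
    rw [Finset.mem_union]
    rcases classify D ha hb hc he hs with h1 | ⟨o, ho, h1⟩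
    · left
      rw [hDg, Finset.mem_filter]
      exact ⟨hq, h1⟩
    · right
      rw [Finset.mem_biUnion]
      have hmem : ∀ q, q ∈ G4 D o → q ∈ G := fun q h => by
        rw [hG, Finset.mem_biUnion]
        exact ⟨o, Finset.mem_range.mpr ho, h⟩
      rcases h1 with h1 | h1 | h1 | h1 | h1 | h1 | h1 | h1
      · exact ⟨0, Finset.mem_univ _, Finset.mem_filter.mpr ⟨hq, hmem _ h1⟩⟩
      · exact ⟨1, Finset.mem_univ _, Finset.mem_filter.mpr ⟨hq, hmem _ h1⟩⟩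
      · exact ⟨2, Finset.mem_univ _, Finset.mem_filter.mpr ⟨hq, hmem _ h1⟩⟩
      · exact ⟨3, Finset.mem_univ _, Finset.mem_filter.mpr ⟨hq, hmem _ h1⟩⟩
      · exact ⟨4, Finset.mem_univ _, Finset.mem_filter.mpr ⟨hq, hmem _ h1⟩⟩
      · exact ⟨5, Finset.mem_univ _, Finset.mem_filter.mpr ⟨hq, hmem _ h1⟩⟩
      · exact ⟨6, Finset.mem_univ _, Finset.mem_filter.mpr ⟨hq, hmem _ h1⟩⟩
      · exact ⟨7, Finset.mem_univ _, Finset.mem_filter.mpr ⟨hq, hmem _ h1⟩⟩
  have hDc : Dg.card ≤ N := by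
    refine Finset.card_le_card_of_injOn (fun q => q.1.1) ?_ ?_
    · rintro ⟨⟨a, c⟩, ⟨b, e⟩⟩ hq
      rw [Finset.mem_coe, hDg, Finset.mem_filter, hQ, Finset.mem_filter, Finset.mem_product,
        Finset.mem_product] at hq
      exact hq.1.1.1.1
    · rintro ⟨⟨a, c⟩, ⟨b, e⟩⟩ hq ⟨⟨a', c'⟩, ⟨b', e'⟩⟩ hq' heq
      rw [Finset.mem_coe, hDg, Finset.mem_filter] at hq hq'
      obtain ⟨-, h1, h2, h3⟩ := hq
      obtain ⟨-, h1', h2', h3'⟩ := hq'
      simp only at h1 h2 h3 h1' h2' h3' heq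
      rw [← h1, ← h2, ← h3, ← h1', ← h2', ← h3', heq]
  have hk : ∀ k ∈ (univ : Finset (Fin 8)), (Q.filter fun q => arr k q ∈ G).card ≤
      D.W * (N ^ 2 * P) := by
    intro k _
    refine le_trans ?_ hGc
    refine Finset.card_le_card_of_injOn (arr k) ?_ ((arr_inj k).injOn)
    intro q hq
    rw [Finset.mem_coe, Finset.mem_filter] at hq
    exact hq.2
  have h8 := (Finset.card_le_card hsub).trans (Finset.card_union_le _ _)
  have h9 : ((univ : Finset (Fin 8)).biUnion fun k => Q.filter fun q => arr k q ∈ G).card ≤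
      8 * (D.W * (N ^ 2 * P)) := by
    refine Finset.card_biUnion_le.trans ((Finset.sum_le_sum hk).trans ?_)
    rw [Finset.sum_const, Finset.card_univ, Fintype.card_fin, smul_eq_mul]
  have hW := D.hW
  have hP1 : 1 ≤ P := Nat.one_le_pow _ _ (Nat.one_le_pow _ _ (by omega))
  have h10 : N ≤ D.W * (N ^ 2 * P) := by
    calc N ≤ N ^ 2 := Nat.le_self_pow (by norm_num) _
      _ = 1 * (N ^ 2 * 1) := by ring
      _ ≤ D.W * (N ^ 2 * P) := Nat.mul_le_mul hW (Nat.mul_le_mul_left _ hP1)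
  calc Q.card ≤ N + 8 * (D.W * (N ^ 2 * P)) := h8.trans (Nat.add_le_add hDc h9)
    _ ≤ D.W * (N ^ 2 * P) + 8 * (D.W * (N ^ 2 * P)) := Nat.add_le_add_right h10 _
    _ = _ := by ring

/-! ### Two sets -/

/-- pairs of elements of two sets with the same image -/
theorem card_fib {α β : Type*} (S : Finset α) (T : Finset β) (f : α → ℤ) (h : β → ℤ)
    (V : Finset ℤ) (hV : ∀ s ∈ S, f s ∈ V) :
    ((S ×ˢ T).filter fun p => f p.1 = h p.2).card =
      ∑ v ∈ V, (S.filter fun s => f s = v).card * (T.filter fun t => h t = v).card := by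
  classical
  rw [Finset.card_eq_sum_card_fiberwise (f := fun p : α × β => f p.1) (t := V)]
  · refine Finset.sum_congr rfl fun v _ => ?_
    rw [← Finset.card_product]
    congr 1
    ext ⟨s, t⟩
    simp only [Finset.mem_filter, Finset.mem_product]
    constructor
    · rintro ⟨⟨⟨h1, h2⟩, h3⟩, h4⟩
      exact ⟨⟨h1, h4⟩, h2, by rw [← h3]; exact h4⟩
    · rintro ⟨⟨h1, h2⟩, h3, h4⟩
      exact ⟨⟨⟨h1, h3⟩, h2.trans h4.symm⟩, h2⟩
  · rintro ⟨s, t⟩ hp
    simp only [Finset.coe_filter, Finset.mem_product, Set.mem_ofPred_eq] at hp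
    exact hV s hp.1.1

/-- **Cauchy–Schwarz for the additive energy.** -/
theorem energy_sq (X Y : Finset ℤ) :
    addEnergy X Y ^ 2 ≤ addEnergy X X * addEnergy Y Y := by
  classical
  set V : Finset ℤ := ((X ×ˢ X).image fun p => p.1 - p.2) ∪ ((Y ×ˢ Y).image fun p => p.1 - p.2)
    with hVd
  set F : Finset ℤ → ℤ → ℕ := fun S v => ((S ×ˢ S).filter fun p => p.1 - p.2 = v).card with hF
  have hsw : ∀ (S : Finset ℤ) (v : ℤ),
      ((S ×ˢ S).filter fun p => p.2 - p.1 = v).card = F S v := by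
    intro S v
    refine Finset.card_bij' (fun p _ => (p.2, p.1)) (fun p _ => (p.2, p.1)) ?_ ?_ ?_ ?_
    · rintro ⟨a, b⟩ h
      simp only [Finset.mem_filter, Finset.mem_product] at h ⊢
      exact ⟨⟨h.1.2, h.1.1⟩, h.2⟩
    · rintro ⟨a, b⟩ h
      simp only [Finset.mem_filter, Finset.mem_product] at h ⊢
      exact ⟨⟨h.1.2, h.1.1⟩, h.2⟩
    · intro p _
      rfl
    · intro p _
      rfl
  have hE : ∀ S T : Finset ℤ, (∀ s ∈ S ×ˢ S, s.1 - s.2 ∈ V) →
      addEnergy S T = ∑ v ∈ V, F S v * F T v := by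
    intro S T hS
    have h1 : addEnergy S T = (((S ×ˢ S) ×ˢ (T ×ˢ T)).filter
        fun p => p.1.1 - p.1.2 = p.2.2 - p.2.1).card := by
      unfold addEnergy
      congr 1
      ext ⟨⟨a, b⟩, ⟨c, e⟩⟩
      simp only [Finset.mem_filter, Finset.mem_product]
      constructor
      · rintro ⟨h1, h2⟩
        exact ⟨h1, by linarith⟩
      · rintro ⟨h1, h2⟩
        exact ⟨h1, by linarith⟩
    rw [h1, card_fib (S ×ˢ S) (T ×ˢ T) (fun p => p.1 - p.2) (fun p => p.2 - p.1) V hS]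
    exact Finset.sum_congr rfl fun v _ => by rw [hsw T v]
  have hX : ∀ s ∈ X ×ˢ X, s.1 - s.2 ∈ V := fun s hs =>
    Finset.mem_union_left _ (Finset.mem_image_of_mem (fun p : ℤ × ℤ => p.1 - p.2) hs)
  have hY : ∀ s ∈ Y ×ˢ Y, s.1 - s.2 ∈ V := fun s hs =>
    Finset.mem_union_right _ (Finset.mem_image_of_mem (fun p : ℤ × ℤ => p.1 - p.2) hs)
  rw [hE X Y hX, hE X X hX, hE Y Y hY]
  have := Finset.sum_mul_sq_le_sq_mul_sq (R := ℕ) V (F X) (F Y)
  simpa only [sq] using this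

/-- the energy does not increase under dilations -/
theorem energy_dil (X : Finset ℤ) {s : ℤ} (hs : s ≠ 0) :
    addEnergy (X.image fun x => s * x) (X.image fun x => s * x) ≤ addEnergy X X := by
  classical
  unfold addEnergy
  refine le_trans (Finset.card_le_card ?_) (Finset.card_image_le (f := fun q : (ℤ × ℤ) × (ℤ × ℤ) =>
    ((s * q.1.1, s * q.1.2), (s * q.2.1, s * q.2.2))))
  rintro ⟨⟨a, b⟩, ⟨c, e⟩⟩ h
  simp only [Finset.mem_filter, Finset.mem_product, Finset.mem_image] at h ⊢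
  obtain ⟨⟨⟨⟨a', ha', rfl⟩, b', hb', rfl⟩, ⟨c', hc', rfl⟩, e', he', rfl⟩, h⟩ := h
  refine ⟨((a', b'), (c', e')), ⟨⟨⟨ha', hb'⟩, hc', he'⟩, ?_⟩, rfl⟩
  have : s * (a' + c') = s * (b' + e') := by linarith
  exact mul_left_cancel₀ hs this

/-- sums of dilates of two sets of small energy -/
theorem sums (X Y : Finset ℤ) (K : ℕ) (hX : addEnergy X X ≤ K * X.card ^ 2)
    (hY : addEnergy Y Y ≤ K * Y.card ^ 2) {s t : ℤ} (hs : s ≠ 0) (ht : t ≠ 0) :
    X.card * Y.card ≤ K * ((X.image fun x => s * x) + (Y.image fun y => t * y)).card := by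
  classical
  set X' := X.image fun x => s * x with hX'
  set Y' := Y.image fun y => t * y with hY'
  have cX : X'.card = X.card := Finset.card_image_of_injective _ (mul_right_injective₀ hs)
  have cY : Y'.card = Y.card := Finset.card_image_of_injective _ (mul_right_injective₀ ht)
  rcases Nat.eq_zero_or_pos (X.card * Y.card) with h0 | h0
  · rw [h0]
    exact Nat.zero_le _
  have h1 := energy_sq X' Y'
  have h2 : addEnergy X' Y' ^ 2 ≤ (K * (X.card * Y.card)) ^ 2 := by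
    refine h1.trans ?_
    calc addEnergy X' X' * addEnergy Y' Y' ≤ (K * X.card ^ 2) * (K * Y.card ^ 2) :=
          Nat.mul_le_mul ((energy_dil X hs).trans hX) ((energy_dil Y ht).trans hY)
      _ = _ := by ring
  have h3 : addEnergy X' Y' ≤ K * (X.card * Y.card) := (Nat.pow_le_pow_iff_left (by norm_num)).mp h2
  have h4 := le_card_add_mul_addEnergy X' Y'
  rw [cX, cY] at h4
  have h5 : (X.card * Y.card) * (X.card * Y.card) ≤
      (X.card * Y.card) * (K * (X' + Y').card) := by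
    calc (X.card * Y.card) * (X.card * Y.card) = X.card ^ 2 * Y.card ^ 2 := by ring
      _ ≤ (X' + Y').card * addEnergy X' Y' := h4
      _ ≤ (X' + Y').card * (K * (X.card * Y.card)) := Nat.mul_le_mul_left _ h3
      _ = _ := by ring
  exact Nat.le_of_mul_le_mul_left h5 h0

end Run7.h663.SPL
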