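import Pool.Agent.Run7.h663.SPL.Energy

/-!
Integers composed of separated pairwise coprime bases: sums of two sets, and lacunary bases.
-/

set_option autoImplicit false

namespace Run7.h663.SPL

open Finset
open scoped Pointwise

/-- the elements are products of powers of the bases, up to the sign -/
def Comp (d m : ℕ) (g : ℕ → ℕ) (A : Finset ℤ) : Prop :=
  ∀ a ∈ A, ∃ x : ℕ → ℕ, (∀ j, x j ≤ d) ∧
    (a = ∏ j ∈ range m, (g j : ℤ) ^ x j ∨ a = -∏ j ∈ range m, (g j : ℤ) ^ x j)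

/-- coprime bases which separate the products of the earlier ones -/
def Sepa (d W m : ℕ) (g : ℕ → ℕ) : Prop :=
  (∀ j < m, 2 ≤ g j) ∧ (∀ i < m, ∀ j < m, i ≠ j → (g i).Coprime (g j)) ∧
  ∀ i < m, ∀ x y z : ℕ → ℕ, (∀ j, x j ≤ d) → (∀ j, y j ≤ d) → (∀ j, z j ≤ d) →
    ((g i : ℤ) ∣ ∏ j ∈ range (i + 1 - W), (g j : ℤ) ^ x j -
        ∏ j ∈ range (i + 1 - W), (g j : ℤ) ^ y j →
      ∏ j ∈ range (i + 1 - W), (g j : ℤ) ^ x j = ∏ j ∈ range (i + 1 - W), (g j : ℤ) ^ y j) ∧
    ((g i : ℤ) ∣ ∏ j ∈ range (i + 1 - W), (g j : ℤ) ^ x j +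
        ∏ j ∈ range (i + 1 - W), (g j : ℤ) ^ y j - ∏ j ∈ range (i + 1 - W), (g j : ℤ) ^ z j →
      ∏ j ∈ range (i + 1 - W), (g j : ℤ) ^ x j + ∏ j ∈ range (i + 1 - W), (g j : ℤ) ^ y j =
        ∏ j ∈ range (i + 1 - W), (g j : ℤ) ^ z j)

theorem val_cast (g : ℕ → ℕ) (k : ℕ) (x : ℕ → ℕ) :
    ((val g k x : ℕ) : ℤ) = ∏ j ∈ range k, (g j : ℤ) ^ x j := by
  unfold val
  push_cast
  rfl

/-- sets of positive integers -/
theorem energy_pos {d W m : ℕ} {g : ℕ → ℕ} (hW : 1 ≤ W) (hg : Sepa d W m g) (X : Finset ℤ)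
    (hX : ∀ a ∈ X, ∃ x : ℕ → ℕ, (∀ j, x j ≤ d) ∧ a = ∏ j ∈ range m, (g j : ℤ) ^ x j) :
    addEnergy X X ≤ 9 * W * ((d + 1) ^ W) ^ 2 * X.card ^ 2 := by
  classical
  have hch : ∀ a : ℤ, ∃ x : ℕ → ℕ, (∀ j, x j ≤ d) ∧
      (a ∈ X → a = ∏ j ∈ range m, (g j : ℤ) ^ x j) := by
    intro a
    by_cases ha : a ∈ X
    · obtain ⟨x, h1, h2⟩ := hX a ha
      exact ⟨x, h1, fun _ => h2⟩
    · exact ⟨fun _ => 0, fun _ => Nat.zero_le _, fun h => absurd h ha⟩
  choose ξ h1 h2 using hch
  exact energy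
    { g := g
      m := m
      W := W
      d := d
      A := X
      ξ := ξ
      hW := hW
      two := hg.1
      cop := hg.2.1
      hv := fun a ha => by rw [val_cast]; exact (h2 a ha).symm
      hd := fun a _ j _ => h1 a j
      h2 := fun a _ b _ i hi => by
        rw [val_cast, val_cast]
        exact (hg.2.2 i hi (ξ a) (ξ b) (ξ b) (h1 a) (h1 b) (h1 b)).1
      h3 := fun a _ b _ c _ i hi => by
        rw [val_cast, val_cast, val_cast]
        exact (hg.2.2 i hi (ξ a) (ξ b) (ξ c) (h1 a) (h1 b) (h1 c)).2 }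

/-- the larger one of the sets of the positive and of the negative elements -/
theorem half {d W m : ℕ} {g : ℕ → ℕ} (hW : 1 ≤ W) (hg : Sepa d W m g) (A : Finset ℤ)
    (hA : Comp d m g A) : ∃ (X : Finset ℤ) (σ : ℤ), σ ≠ 0 ∧ (∀ x ∈ X, σ * x ∈ A) ∧
      A.card ≤ 2 * X.card ∧ addEnergy X X ≤ 9 * W * ((d + 1) ^ W) ^ 2 * X.card ^ 2 := by
  classical
  have hpos : ∀ x : ℕ → ℕ, 0 < ∏ j ∈ range m, (g j : ℤ) ^ x j := by
    intro x
    apply Finset.prod_pos
    intro j hj
    have := hg.1 j (Finset.mem_range.mp hj)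
    positivity
  set P := A.filter fun a => 0 < a with hP
  set N := A.filter fun a => ¬ 0 < a with hN
  have hcard : P.card + N.card = A.card := Finset.card_filter_add_card_filter_not _
  rcases le_total N.card P.card with h | h
  · refine ⟨P, 1, one_ne_zero, fun x hx => ?_, by omega, energy_pos hW hg P ?_⟩
    · rw [one_mul]
      exact (Finset.mem_filter.mp hx).1
    · intro a ha
      rw [hP, Finset.mem_filter] at ha
      obtain ⟨x, h1, h2 | h2⟩ := hA a ha.1
      · exact ⟨x, h1, h2⟩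
      · have := hpos x
        omega
  · have hc : (N.image fun a => -a).card = N.card :=
      Finset.card_image_of_injective _ neg_injective
    refine ⟨N.image fun a => -a, -1, by norm_num, fun x hx => ?_, by omega,
      energy_pos hW hg _ ?_⟩
    · rw [Finset.mem_image] at hx
      obtain ⟨a, ha, rfl⟩ := hx
      rw [neg_one_mul, neg_neg]
      exact (Finset.mem_filter.mp ha).1
    · intro b hb
      rw [Finset.mem_image] at hb
      obtain ⟨a, ha, rfl⟩ := hb
      rw [hN, Finset.mem_filter] at ha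
      obtain ⟨x, h1, h2 | h2⟩ := hA a ha.1
      · have := hpos x
        have := ha.2
        omega
      · exact ⟨x, h1, by rw [h2, neg_neg]⟩

/-- **Sums of two sets.** -/
theorem main_sep {d W m m' : ℕ} {g g' : ℕ → ℕ} (hW : 1 ≤ W) (hg : Sepa d W m g)
    (hg' : Sepa d W m' g') (A B : Finset ℤ) (hA : Comp d m g A) (hB : Comp d m' g' B) {s t : ℤ}
    (hs : s ≠ 0) (ht : t ≠ 0) : A.card * B.card ≤
      36 * W * (d + 1) ^ (2 * W) * ((A.image fun a => s * a) + (B.image fun b => t * b)).card := by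
  classical
  obtain ⟨X, σ, hσ, hX1, hX2, hX3⟩ := half hW hg A hA
  obtain ⟨Y, τ, hτ, hY1, hY2, hY3⟩ := half hW hg' B hB
  have h1 := sums X Y (9 * W * ((d + 1) ^ W) ^ 2) hX3 hY3 (s := s * σ) (t := t * τ)
    (mul_ne_zero hs hσ) (mul_ne_zero ht hτ)
  have h2 : ((X.image fun x => s * σ * x) + (Y.image fun y => t * τ * y)).card ≤
      ((A.image fun a => s * a) + (B.image fun b => t * b)).card := by
    apply Finset.card_le_card
    apply Finset.add_subset_add
    · intro z hz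
      rw [Finset.mem_image] at hz ⊢
      obtain ⟨x, hx, rfl⟩ := hz
      exact ⟨σ * x, hX1 x hx, by ring⟩
    · intro z hz
      rw [Finset.mem_image] at hz ⊢
      obtain ⟨y, hy, rfl⟩ := hz
      exact ⟨τ * y, hY1 y hy, by ring⟩
  calc A.card * B.card ≤ (2 * X.card) * (2 * Y.card) := Nat.mul_le_mul hX2 hY2
    _ = 4 * (X.card * Y.card) := by ring
    _ ≤ 4 * (9 * W * ((d + 1) ^ W) ^ 2 *
        ((X.image fun x => s * σ * x) + (Y.image fun y => t * τ * y)).card) :=
      Nat.mul_le_mul_left _ h1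
    _ ≤ 4 * (9 * W * ((d + 1) ^ W) ^ 2 *
        ((A.image fun a => s * a) + (B.image fun b => t * b)).card) :=
      Nat.mul_le_mul_left _ (Nat.mul_le_mul_left _ h2)
    _ = _ := by rw [← pow_mul, mul_comm W 2]; ring

/-! ### Lacunary bases -/

theorem val_le {d m : ℕ} {g : ℕ → ℕ} {δ : ℝ} (hδ : 0 < δ) (h2 : ∀ j < m, 2 ≤ g j)
    (hg : ∀ j, j + 1 < m → (g j : ℝ) ^ (1 + δ) ≤ g (j + 1)) (x : ℕ → ℕ) (hx : ∀ j, x j ≤ d) :
    ∀ k < m, (val g (k + 1) x : ℝ) ≤ (g k : ℝ) ^ (d * (1 + δ) / δ) := by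
  have hstep : ∀ k < m, ∀ e : ℝ, 0 ≤ e → (g k : ℝ) ^ e * (g k : ℝ) ^ x k ≤
      (g k : ℝ) ^ (e + d) := by
    intro k hk e he
    have h1 : (1 : ℝ) ≤ g k := by
      have := h2 k hk
      exact_mod_cast (show 1 ≤ g k by omega)
    rw [Real.rpow_add (by linarith), Real.rpow_natCast]
    exact mul_le_mul_of_nonneg_left (pow_le_pow_right₀ h1 (hx k)) (by positivity)
  intro k
  induction k with
  | zero =>
    intro hk
    have h1 : (1 : ℝ) ≤ g 0 := by
      have := h2 0 hk
      exact_mod_cast (show 1 ≤ g 0 by omega)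
    have h3 := hstep 0 hk 0 le_rfl
    rw [Real.rpow_zero, one_mul, zero_add] at h3
    unfold val
    rw [Finset.prod_range_succ, Finset.prod_range_zero, one_mul]
    push_cast
    refine h3.trans (Real.rpow_le_rpow_of_exponent_le h1 ?_)
    rw [le_div_iff₀ hδ]
    have : (0 : ℝ) ≤ d := Nat.cast_nonneg _
    nlinarith
  | succ k ih =>
    intro hk
    have h1 : (0 : ℝ) < g k := by
      have := h2 k (by omega)
      exact_mod_cast (show 0 < g k by omega)
    have h4 := ih (by omega)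
    have h5 : (g k : ℝ) ^ (d * (1 + δ) / δ) ≤ (g (k + 1) : ℝ) ^ ((d : ℝ) / δ) := by
      have e : (d : ℝ) * (1 + δ) / δ = (1 + δ) * (d / δ) := by ring
      rw [e, Real.rpow_mul h1.le]
      exact Real.rpow_le_rpow (by positivity) (hg k hk) (by positivity)
    have h6 : val g (k + 1 + 1) x = val g (k + 1) x * g (k + 1) ^ x (k + 1) :=
      Finset.prod_range_succ _ _
    rw [h6]
    push_cast
    have h7 := hstep (k + 1) hk ((d : ℝ) / δ) (by positivity)
    have e : (d : ℝ) / δ + d = d * (1 + δ) / δ := by field_simp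
    rw [e] at h7
    refine le_trans ?_ h7
    exact mul_le_mul_of_nonneg_right (h4.trans h5) (by positivity)

theorem grow {m : ℕ} {g : ℕ → ℕ} {δ : ℝ} (hδ : 0 < δ) (h2 : ∀ j < m, 2 ≤ g j)
    (hg : ∀ j, j + 1 < m → (g j : ℝ) ^ (1 + δ) ≤ g (j + 1)) (k : ℕ) :
    ∀ n, k + n < m → (g k : ℝ) ^ ((1 + δ) ^ n) ≤ g (k + n) := by
  intro n
  induction n with
  | zero =>
    intro _
    simp
  | succ n ih =>
    intro hk
    have h1 : (0 : ℝ) < g k := by
      have := h2 k (by omega)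
      exact_mod_cast (show 0 < g k by omega)
    rw [pow_succ, Real.rpow_mul h1.le]
    refine le_trans ?_ (hg (k + n) hk)
    exact Real.rpow_le_rpow (by positivity) (ih (by omega)) (by linarith)

/-- lacunary bases are separated -/
theorem sepa_of {d W m : ℕ} {g : ℕ → ℕ} {δ : ℝ} (hδ : 0 < δ) (h2 : ∀ j < m, 2 ≤ g j)
    (hcop : ∀ i < m, ∀ j < m, i ≠ j → (g i).Coprime (g j))
    (hg : ∀ j, j + 1 < m → (g j : ℝ) ^ (1 + δ) ≤ g (j + 1))
    (hW : d * (1 + δ) / δ + 1 ≤ (1 + δ) ^ W) : Sepa d W m g := by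
  have key : ∀ i < m, ∀ x : ℕ → ℕ, (∀ j, x j ≤ d) → 2 * val g (i + 1 - W) x ≤ g i := by
    intro i hi x hx
    rcases Nat.lt_or_ge i W with h | h
    · rw [show i + 1 - W = 0 by omega]
      unfold val
      rw [Finset.prod_range_zero, mul_one]
      exact h2 i hi
    · obtain ⟨k, rfl⟩ : ∃ k, i = k + W := ⟨i - W, by omega⟩
      rw [show k + W + 1 - W = k + 1 by omega]
      have h3 := val_le hδ h2 hg x hx k (by omega)
      have h4 := grow hδ h2 hg k W hi
      have h5 : (2 : ℝ) ≤ g k := by exact_mod_cast h2 k (by omega)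
      have h6 : (2 * val g (k + 1) x : ℝ) ≤ g (k + W) := by
        refine le_trans ?_ h4
        refine le_trans ?_ (Real.rpow_le_rpow_of_exponent_le (by linarith) hW)
        rw [Real.rpow_add (by linarith), Real.rpow_one, mul_comm]
        exact mul_le_mul h3 h5 (by norm_num) (by positivity)
      exact_mod_cast h6
  refine ⟨h2, hcop, fun i hi x y z hx hy hz => ?_⟩
  have kx := key i hi x hx
  have ky := key i hi y hy
  have kz := key i hi z hz
  have hpos : ∀ u : ℕ → ℕ, 0 < val g (i + 1 - W) u := by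
    intro u
    unfold val
    apply Finset.prod_pos
    intro j hj
    have h1 := Finset.mem_range.mp hj
    rcases Nat.lt_or_ge j m with h3 | h3
    · have := h2 j h3
      positivity
    · exfalso
      omega
  have px := hpos x
  have py := hpos y
  have pz := hpos z
  rw [← val_cast, ← val_cast, ← val_cast]
  constructor
  · intro h
    have h3 : ((val g (i + 1 - W) x : ℕ) : ℤ) - (val g (i + 1 - W) y : ℕ) = 0 := by
      apply Int.eq_zero_of_abs_lt_dvd h
      rw [abs_lt]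
      constructor <;> omega
    omega
  · intro h
    have h3 : ((val g (i + 1 - W) x : ℕ) : ℤ) + (val g (i + 1 - W) y : ℕ) -
        (val g (i + 1 - W) z : ℕ) = 0 := by
      apply Int.eq_zero_of_abs_lt_dvd h
      rw [abs_lt]
      constructor <;> omega
    omega

end Run7.h663.SPL
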